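import Pool.Agent.Lib_helper72.KY.V4

/-!
# The curve with `b = 390`, `c = -78`: the units, their logarithmic derivatives
-/

set_option autoImplicit false
set_option linter.unusedSectionVars false
set_option linter.unusedSimpArgs false
set_option linter.unusedVariables false

namespace Pool.Agent.KYb

open Polynomial WeierstrassCurve.Affine WithZero TN KY
open Pool.Agent.K7 (LC LC_x LC_y LC_xc LC_yx LC_one LC_c LC_prod wr2)

section K

variable (k : Type*) [Field k]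

/-- the curve -/
abbrev W8 : WeierstrassCurve.Affine k := Wt (390) (-78)

/-- the units -/
noncomputable def uK : Fin 11 → K (W8 k) :=
  ![xK, xK - cK (390), xK - cK (-78), xK - cK (30), xK - cK (-780), xK - cK (39/4), yK,
    yK - cK (-78) * xK, yK - cK (-6) * xK, yK - cK (-60) * xK, yK - cK (-39/2) * xK]

lemma LC_uK (j : Fin 11) : LC (uK k j) (- oU j 0) 1 := by
  fin_cases j
  · exact LC_x
  · exact LC_xc _
  · exact LC_xc _
  · exact LC_xc _
  · exact LC_xc _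
  · exact LC_xc _
  · exact LC_y
  · exact LC_yx _
  · exact LC_yx _
  · exact LC_yx _
  · exact LC_yx _

lemma uK_ne (j : Fin 11) : uK k j ≠ 0 := (LC_uK k j).ne

/-- the function vanishing at the eleven points -/
noncomputable def qK : K (W8 k) :=
  xK * (xK - cK (390)) * (xK - cK (-78)) *
    (xK - cK (30)) * (xK - cK (-780)) * (xK - cK (39/4))

/-- the coefficients of `q u'/u`, times `4` -/
def rrz : Fin 11 → Fin 13 → ℤ :=
  ![![10826903880000, -3539564730000, -55522584000, 292561308000, 6904731600, -3560052600, -101663640, -92968668, -2336724, 133767, 3426, 316, 8],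
    ![0, -27761292000, 0, 9004624200, 142365600, -727068420, -17339400, 7264062, 216216, 257007, 6546, 316, 8],
    ![0, 138806460000, 0, -47158605000, -711828000, 4355383500, 97648200, -101479950, -2555280, 109119, 2802, 316, 8],
    ![0, -360896796000, 0, 105955597800, 1850752800, -6220190340, -168465960, -88671258, -2226744, 143247, 3666, 316, 8],
    ![0, 13880646000, 0, -4555699200, -71182800, 380919240, 8943480, -5052528, -141804, -112713, -2814, 316, 8],
    ![0, -1110451680000, 0, 249139800000, 5694624000, -4453488000, -124113600, -91634400, -2302560, 136848, 3504, 316, 8],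
    ![21653807760000, -4913748684000, -55522584000, 321390342000, 6975914400, -3831459840, -110333340, -86372676, -2228616, 389214, 6699, 632, 12],
    ![10826903880000, -3400758270000, -27761292000, 273163995000, 3167634600, -3012948900, -10677420, -94792698, -2337894, 133608, 6387, 320, 12],
    ![10826903880000, -1735080750000, -27761292000, 95918823000, 4021828200, -1501683300, -86240700, -183483378, -3559374, 241680, 4947, 608, 12],
    ![10826903880000, -3359116332000, -27761292000, 274979156400, 4342150800, -3647844720, -130593060, -93437136, -2352636, 106194, 2139, 392, 12],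
    ![10826903880000, -2984338890000, -27761292000, 276901092000, 6264086400, -3485219400, -108416880, -96305508, -2390544, 49251, 2058, 554, 12]]

/-- the coefficients of `q u'/u` -/
def rr (j : Fin 11) (m : Fin 13) : k := (rrz j m : k) / 4

lemma rr_top [CharZero k] (j : Fin 11) : rr k j 12 = ((- oU j 0 : ℤ) : k) := by
  have h : ∀ j : Fin 11, rrz j 12 = 4 * (- oU j 0) := by decide +kernel
  unfold rr
  rw [h]
  first | (push_cast; field_simp; done) | (push_cast; simp; done) | simp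

lemma hdx : (dx : K (W8 k)) = 2 * yK + (1 - cK (-78)) * xK - cK (390) := by
  show 2 * yK + cK (1 - -78) * xK + cK (- (390)) = _
  simp only [map_sub, map_one, map_neg]; ring

lemma hdy : (dy : K (W8 k)) = 3 * xK ^ 2 - 2 * cK (390) * xK - (1 - cK (-78)) * yK := by
  show 3 * xK ^ 2 + 2 * cK (- (390)) * xK + cK 0 - cK (1 - -78) * yK = _
  simp only [map_sub, map_one, map_neg, map_zero]; ring

lemma dv_cmul (a : k) (z : K (W8 k)) : dv (cK a * z) = cK a * dv z := by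
  rw [dv_mul, dv_c, mul_zero, add_zero]

lemma dv_sub' (z w : K (W8 k)) : dv (z - w) = dv z - dv w := by
  have h := dv_add (z - w) w
  rw [sub_add_cancel] at h
  linear_combination -h

/-- the derivatives of the units -/
lemma dv_uK (j : Fin 11) : dv (uK k j) = (![dx, dx, dx, dx, dx, dx, dy,
    dy - cK (-78) * dx, dy - cK (-6) * dx, dy - cK (-60) * dx, dy - cK (-39/2) * dx] : Fin 11 → K (W8 k)) j := by
  fin_cases j
  · exact dv_x
  · exact (dv_sub_c _ _).trans dv_x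
  · exact (dv_sub_c _ _).trans dv_x
  · exact (dv_sub_c _ _).trans dv_x
  · exact (dv_sub_c _ _).trans dv_x
  · exact (dv_sub_c _ _).trans dv_x
  · exact dv_y
  · show dv (yK - cK (-78) * xK) = dy - cK (-78) * dx
    rw [dv_sub', dv_cmul, dv_x, dv_y]
  · show dv (yK - cK (-6) * xK) = dy - cK (-6) * dx
    rw [dv_sub', dv_cmul, dv_x, dv_y]
  · show dv (yK - cK (-60) * xK) = dy - cK (-60) * dx
    rw [dv_sub', dv_cmul, dv_x, dv_y]
  · show dv (yK - cK (-39/2) * xK) = dy - cK (-39/2) * dx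
    rw [dv_sub', dv_cmul, dv_x, dv_y]

lemma eqW8 : (yK : K (W8 k)) ^ 2 + (1 - cK (-78)) * xK * yK - cK (390) * yK =
    xK ^ 3 - cK (390) * xK ^ 2 := eqW

lemma NV_eq (r : Fin 13 → k) : (NV r : K (W8 k)) = cK (r 0) + cK (r 1) * xK + cK (r 2) * yK +
    cK (r 3) * xK ^ 2 + cK (r 4) * (xK * yK) + cK (r 5) * xK ^ 3 + cK (r 6) * (xK ^ 2 * yK) +
    cK (r 7) * xK ^ 4 + cK (r 8) * (xK ^ 3 * yK) + cK (r 9) * xK ^ 5 +
    cK (r 10) * (xK ^ 4 * yK) + cK (r 11) * xK ^ 6 + cK (r 12) * (xK ^ 5 * yK) := by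
  unfold NV
  rw [Fin.sum_univ_castSucc, sum12]
  show cK (r 0) * 1 + cK (r 1) * xK + cK (r 2) * yK + cK (r 3) * xK ^ 2 +
    cK (r 4) * (xK * yK) + cK (r 5) * xK ^ 3 + cK (r 6) * (xK ^ 2 * yK) + cK (r 7) * xK ^ 4 +
    cK (r 8) * (xK ^ 3 * yK) + cK (r 9) * xK ^ 5 + cK (r 10) * (xK ^ 4 * yK) +
    cK (r 11) * xK ^ 6 + cK (r 12) * (xK ^ 5 * yK) = _
  ring


lemma ld_uK0 [CharZero k] : qK k * ld (uK k 0) = NV (rr k 0) := by
  have : CharZero (K (W8 k)) :=
    charZero_of_injective_algebraMap (algebraMap k (K (W8 k))).injective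
  have hu := uK_ne k 0
  have he := eqW8 k
  have h1 := hdx k
  have h2 := hdy k
  have n0 : (cK (390) : K (W8 k)) = 390 := by simp [map_div₀, map_ofNat, map_neg]
  have n1 : (cK (-78) : K (W8 k)) = -78 := by simp [map_div₀, map_ofNat, map_neg]
  have n2 : (cK (30) : K (W8 k)) = 30 := by simp [map_div₀, map_ofNat, map_neg]
  have n3 : (cK (-780) : K (W8 k)) = -780 := by simp [map_div₀, map_ofNat, map_neg]
  have n4 : (cK (39/4) : K (W8 k)) = 39/4 := by simp [map_div₀, map_ofNat, map_neg]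
  have n5 : (cK (-6) : K (W8 k)) = -6 := by simp [map_div₀, map_ofNat, map_neg]
  have n6 : (cK (-60) : K (W8 k)) = -60 := by simp [map_div₀, map_ofNat, map_neg]
  have n7 : (cK (-39/2) : K (W8 k)) = -39/2 := by simp [map_div₀, map_ofNat, map_neg]
  have hr : ∀ j m, (cK (rr k j m) : K (W8 k)) = ((rrz j m : ℤ) : K (W8 k)) / 4 := by
    intro j m
    unfold rr
    first | rw [map_div₀, map_intCast, map_ofNat] | rw [map_div₀, map_intCast, map_one]
  rw [n0, n1] at he h1 h2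
  unfold ld
  rw [← mul_div_assoc, div_eq_iff hu, dv_uK, NV_eq]
  simp only [hr]
  unfold qK
  rw [n0, n1, n2, n3, n4]
  show xK * (xK - (390)) * (xK - (-78)) * (xK - (30)) * (xK - (-780)) * (xK - (39/4)) * dx =
      (((10826903880000 : ℤ) : K (W8 k)) / 4 + ((-3539564730000 : ℤ) : K (W8 k)) / 4 * xK +
      ((-55522584000 : ℤ) : K (W8 k)) / 4 * yK + ((292561308000 : ℤ) : K (W8 k)) / 4 * xK ^ 2 +
      ((6904731600 : ℤ) : K (W8 k)) / 4 * (xK * yK) + ((-3560052600 : ℤ) : K (W8 k)) / 4 * xK ^ 3 +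
      ((-101663640 : ℤ) : K (W8 k)) / 4 * (xK ^ 2 * yK) + ((-92968668 : ℤ) : K (W8 k)) / 4 * xK ^ 4 +
      ((-2336724 : ℤ) : K (W8 k)) / 4 * (xK ^ 3 * yK) + ((133767 : ℤ) : K (W8 k)) / 4 * xK ^ 5 +
      ((3426 : ℤ) : K (W8 k)) / 4 * (xK ^ 4 * yK) + ((316 : ℤ) : K (W8 k)) / 4 * xK ^ 6 +
      ((8 : ℤ) : K (W8 k)) / 4 * (xK ^ 5 * yK)) * (xK)
  push_cast
  rw [h1]
  ring


lemma ld_uK1 [CharZero k] : qK k * ld (uK k 1) = NV (rr k 1) := by
  have : CharZero (K (W8 k)) :=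
    charZero_of_injective_algebraMap (algebraMap k (K (W8 k))).injective
  have hu := uK_ne k 1
  have he := eqW8 k
  have h1 := hdx k
  have h2 := hdy k
  have n0 : (cK (390) : K (W8 k)) = 390 := by simp [map_div₀, map_ofNat, map_neg]
  have n1 : (cK (-78) : K (W8 k)) = -78 := by simp [map_div₀, map_ofNat, map_neg]
  have n2 : (cK (30) : K (W8 k)) = 30 := by simp [map_div₀, map_ofNat, map_neg]
  have n3 : (cK (-780) : K (W8 k)) = -780 := by simp [map_div₀, map_ofNat, map_neg]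
  have n4 : (cK (39/4) : K (W8 k)) = 39/4 := by simp [map_div₀, map_ofNat, map_neg]
  have n5 : (cK (-6) : K (W8 k)) = -6 := by simp [map_div₀, map_ofNat, map_neg]
  have n6 : (cK (-60) : K (W8 k)) = -60 := by simp [map_div₀, map_ofNat, map_neg]
  have n7 : (cK (-39/2) : K (W8 k)) = -39/2 := by simp [map_div₀, map_ofNat, map_neg]
  have hr : ∀ j m, (cK (rr k j m) : K (W8 k)) = ((rrz j m : ℤ) : K (W8 k)) / 4 := by
    intro j m
    unfold rr
    first | rw [map_div₀, map_intCast, map_ofNat] | rw [map_div₀, map_intCast, map_one]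
  rw [n0, n1] at he h1 h2
  unfold ld
  rw [← mul_div_assoc, div_eq_iff hu, dv_uK, NV_eq]
  simp only [hr]
  unfold qK
  rw [n0, n1, n2, n3, n4]
  show xK * (xK - (390)) * (xK - (-78)) * (xK - (30)) * (xK - (-780)) * (xK - (39/4)) * dx =
      (((0 : ℤ) : K (W8 k)) / 4 + ((-27761292000 : ℤ) : K (W8 k)) / 4 * xK +
      ((0 : ℤ) : K (W8 k)) / 4 * yK + ((9004624200 : ℤ) : K (W8 k)) / 4 * xK ^ 2 +
      ((142365600 : ℤ) : K (W8 k)) / 4 * (xK * yK) + ((-727068420 : ℤ) : K (W8 k)) / 4 * xK ^ 3 +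
      ((-17339400 : ℤ) : K (W8 k)) / 4 * (xK ^ 2 * yK) + ((7264062 : ℤ) : K (W8 k)) / 4 * xK ^ 4 +
      ((216216 : ℤ) : K (W8 k)) / 4 * (xK ^ 3 * yK) + ((257007 : ℤ) : K (W8 k)) / 4 * xK ^ 5 +
      ((6546 : ℤ) : K (W8 k)) / 4 * (xK ^ 4 * yK) + ((316 : ℤ) : K (W8 k)) / 4 * xK ^ 6 +
      ((8 : ℤ) : K (W8 k)) / 4 * (xK ^ 5 * yK)) * (xK - cK (390))
  push_cast
  rw [h1, n0]
  ring


lemma ld_uK2 [CharZero k] : qK k * ld (uK k 2) = NV (rr k 2) := by
  have : CharZero (K (W8 k)) :=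
    charZero_of_injective_algebraMap (algebraMap k (K (W8 k))).injective
  have hu := uK_ne k 2
  have he := eqW8 k
  have h1 := hdx k
  have h2 := hdy k
  have n0 : (cK (390) : K (W8 k)) = 390 := by simp [map_div₀, map_ofNat, map_neg]
  have n1 : (cK (-78) : K (W8 k)) = -78 := by simp [map_div₀, map_ofNat, map_neg]
  have n2 : (cK (30) : K (W8 k)) = 30 := by simp [map_div₀, map_ofNat, map_neg]
  have n3 : (cK (-780) : K (W8 k)) = -780 := by simp [map_div₀, map_ofNat, map_neg]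
  have n4 : (cK (39/4) : K (W8 k)) = 39/4 := by simp [map_div₀, map_ofNat, map_neg]
  have n5 : (cK (-6) : K (W8 k)) = -6 := by simp [map_div₀, map_ofNat, map_neg]
  have n6 : (cK (-60) : K (W8 k)) = -60 := by simp [map_div₀, map_ofNat, map_neg]
  have n7 : (cK (-39/2) : K (W8 k)) = -39/2 := by simp [map_div₀, map_ofNat, map_neg]
  have hr : ∀ j m, (cK (rr k j m) : K (W8 k)) = ((rrz j m : ℤ) : K (W8 k)) / 4 := by
    intro j m
    unfold rr
    first | rw [map_div₀, map_intCast, map_ofNat] | rw [map_div₀, map_intCast, map_one]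
  rw [n0, n1] at he h1 h2
  unfold ld
  rw [← mul_div_assoc, div_eq_iff hu, dv_uK, NV_eq]
  simp only [hr]
  unfold qK
  rw [n0, n1, n2, n3, n4]
  show xK * (xK - (390)) * (xK - (-78)) * (xK - (30)) * (xK - (-780)) * (xK - (39/4)) * dx =
      (((0 : ℤ) : K (W8 k)) / 4 + ((138806460000 : ℤ) : K (W8 k)) / 4 * xK +
      ((0 : ℤ) : K (W8 k)) / 4 * yK + ((-47158605000 : ℤ) : K (W8 k)) / 4 * xK ^ 2 +
      ((-711828000 : ℤ) : K (W8 k)) / 4 * (xK * yK) + ((4355383500 : ℤ) : K (W8 k)) / 4 * xK ^ 3 +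
      ((97648200 : ℤ) : K (W8 k)) / 4 * (xK ^ 2 * yK) + ((-101479950 : ℤ) : K (W8 k)) / 4 * xK ^ 4 +
      ((-2555280 : ℤ) : K (W8 k)) / 4 * (xK ^ 3 * yK) + ((109119 : ℤ) : K (W8 k)) / 4 * xK ^ 5 +
      ((2802 : ℤ) : K (W8 k)) / 4 * (xK ^ 4 * yK) + ((316 : ℤ) : K (W8 k)) / 4 * xK ^ 6 +
      ((8 : ℤ) : K (W8 k)) / 4 * (xK ^ 5 * yK)) * (xK - cK (-78))
  push_cast
  rw [h1, n1]
  ring


lemma ld_uK3 [CharZero k] : qK k * ld (uK k 3) = NV (rr k 3) := by
  have : CharZero (K (W8 k)) :=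
    charZero_of_injective_algebraMap (algebraMap k (K (W8 k))).injective
  have hu := uK_ne k 3
  have he := eqW8 k
  have h1 := hdx k
  have h2 := hdy k
  have n0 : (cK (390) : K (W8 k)) = 390 := by simp [map_div₀, map_ofNat, map_neg]
  have n1 : (cK (-78) : K (W8 k)) = -78 := by simp [map_div₀, map_ofNat, map_neg]
  have n2 : (cK (30) : K (W8 k)) = 30 := by simp [map_div₀, map_ofNat, map_neg]
  have n3 : (cK (-780) : K (W8 k)) = -780 := by simp [map_div₀, map_ofNat, map_neg]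
  have n4 : (cK (39/4) : K (W8 k)) = 39/4 := by simp [map_div₀, map_ofNat, map_neg]
  have n5 : (cK (-6) : K (W8 k)) = -6 := by simp [map_div₀, map_ofNat, map_neg]
  have n6 : (cK (-60) : K (W8 k)) = -60 := by simp [map_div₀, map_ofNat, map_neg]
  have n7 : (cK (-39/2) : K (W8 k)) = -39/2 := by simp [map_div₀, map_ofNat, map_neg]
  have hr : ∀ j m, (cK (rr k j m) : K (W8 k)) = ((rrz j m : ℤ) : K (W8 k)) / 4 := by
    intro j m
    unfold rr
    first | rw [map_div₀, map_intCast, map_ofNat] | rw [map_div₀, map_intCast, map_one]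
  rw [n0, n1] at he h1 h2
  unfold ld
  rw [← mul_div_assoc, div_eq_iff hu, dv_uK, NV_eq]
  simp only [hr]
  unfold qK
  rw [n0, n1, n2, n3, n4]
  show xK * (xK - (390)) * (xK - (-78)) * (xK - (30)) * (xK - (-780)) * (xK - (39/4)) * dx =
      (((0 : ℤ) : K (W8 k)) / 4 + ((-360896796000 : ℤ) : K (W8 k)) / 4 * xK +
      ((0 : ℤ) : K (W8 k)) / 4 * yK + ((105955597800 : ℤ) : K (W8 k)) / 4 * xK ^ 2 +
      ((1850752800 : ℤ) : K (W8 k)) / 4 * (xK * yK) + ((-6220190340 : ℤ) : K (W8 k)) / 4 * xK ^ 3 +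
      ((-168465960 : ℤ) : K (W8 k)) / 4 * (xK ^ 2 * yK) + ((-88671258 : ℤ) : K (W8 k)) / 4 * xK ^ 4 +
      ((-2226744 : ℤ) : K (W8 k)) / 4 * (xK ^ 3 * yK) + ((143247 : ℤ) : K (W8 k)) / 4 * xK ^ 5 +
      ((3666 : ℤ) : K (W8 k)) / 4 * (xK ^ 4 * yK) + ((316 : ℤ) : K (W8 k)) / 4 * xK ^ 6 +
      ((8 : ℤ) : K (W8 k)) / 4 * (xK ^ 5 * yK)) * (xK - cK (30))
  push_cast
  rw [h1, n2]
  ring


lemma ld_uK4 [CharZero k] : qK k * ld (uK k 4) = NV (rr k 4) := by
  have : CharZero (K (W8 k)) :=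
    charZero_of_injective_algebraMap (algebraMap k (K (W8 k))).injective
  have hu := uK_ne k 4
  have he := eqW8 k
  have h1 := hdx k
  have h2 := hdy k
  have n0 : (cK (390) : K (W8 k)) = 390 := by simp [map_div₀, map_ofNat, map_neg]
  have n1 : (cK (-78) : K (W8 k)) = -78 := by simp [map_div₀, map_ofNat, map_neg]
  have n2 : (cK (30) : K (W8 k)) = 30 := by simp [map_div₀, map_ofNat, map_neg]
  have n3 : (cK (-780) : K (W8 k)) = -780 := by simp [map_div₀, map_ofNat, map_neg]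
  have n4 : (cK (39/4) : K (W8 k)) = 39/4 := by simp [map_div₀, map_ofNat, map_neg]
  have n5 : (cK (-6) : K (W8 k)) = -6 := by simp [map_div₀, map_ofNat, map_neg]
  have n6 : (cK (-60) : K (W8 k)) = -60 := by simp [map_div₀, map_ofNat, map_neg]
  have n7 : (cK (-39/2) : K (W8 k)) = -39/2 := by simp [map_div₀, map_ofNat, map_neg]
  have hr : ∀ j m, (cK (rr k j m) : K (W8 k)) = ((rrz j m : ℤ) : K (W8 k)) / 4 := by
    intro j m
    unfold rr
    first | rw [map_div₀, map_intCast, map_ofNat] | rw [map_div₀, map_intCast, map_one]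
  rw [n0, n1] at he h1 h2
  unfold ld
  rw [← mul_div_assoc, div_eq_iff hu, dv_uK, NV_eq]
  simp only [hr]
  unfold qK
  rw [n0, n1, n2, n3, n4]
  show xK * (xK - (390)) * (xK - (-78)) * (xK - (30)) * (xK - (-780)) * (xK - (39/4)) * dx =
      (((0 : ℤ) : K (W8 k)) / 4 + ((13880646000 : ℤ) : K (W8 k)) / 4 * xK +
      ((0 : ℤ) : K (W8 k)) / 4 * yK + ((-4555699200 : ℤ) : K (W8 k)) / 4 * xK ^ 2 +
      ((-71182800 : ℤ) : K (W8 k)) / 4 * (xK * yK) + ((380919240 : ℤ) : K (W8 k)) / 4 * xK ^ 3 +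
      ((8943480 : ℤ) : K (W8 k)) / 4 * (xK ^ 2 * yK) + ((-5052528 : ℤ) : K (W8 k)) / 4 * xK ^ 4 +
      ((-141804 : ℤ) : K (W8 k)) / 4 * (xK ^ 3 * yK) + ((-112713 : ℤ) : K (W8 k)) / 4 * xK ^ 5 +
      ((-2814 : ℤ) : K (W8 k)) / 4 * (xK ^ 4 * yK) + ((316 : ℤ) : K (W8 k)) / 4 * xK ^ 6 +
      ((8 : ℤ) : K (W8 k)) / 4 * (xK ^ 5 * yK)) * (xK - cK (-780))
  push_cast
  rw [h1, n3]
  ring


lemma ld_uK5 [CharZero k] : qK k * ld (uK k 5) = NV (rr k 5) := by
  have : CharZero (K (W8 k)) :=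
    charZero_of_injective_algebraMap (algebraMap k (K (W8 k))).injective
  have hu := uK_ne k 5
  have he := eqW8 k
  have h1 := hdx k
  have h2 := hdy k
  have n0 : (cK (390) : K (W8 k)) = 390 := by simp [map_div₀, map_ofNat, map_neg]
  have n1 : (cK (-78) : K (W8 k)) = -78 := by simp [map_div₀, map_ofNat, map_neg]
  have n2 : (cK (30) : K (W8 k)) = 30 := by simp [map_div₀, map_ofNat, map_neg]
  have n3 : (cK (-780) : K (W8 k)) = -780 := by simp [map_div₀, map_ofNat, map_neg]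
  have n4 : (cK (39/4) : K (W8 k)) = 39/4 := by simp [map_div₀, map_ofNat, map_neg]
  have n5 : (cK (-6) : K (W8 k)) = -6 := by simp [map_div₀, map_ofNat, map_neg]
  have n6 : (cK (-60) : K (W8 k)) = -60 := by simp [map_div₀, map_ofNat, map_neg]
  have n7 : (cK (-39/2) : K (W8 k)) = -39/2 := by simp [map_div₀, map_ofNat, map_neg]
  have hr : ∀ j m, (cK (rr k j m) : K (W8 k)) = ((rrz j m : ℤ) : K (W8 k)) / 4 := by
    intro j m
    unfold rr
    first | rw [map_div₀, map_intCast, map_ofNat] | rw [map_div₀, map_intCast, map_one]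
  rw [n0, n1] at he h1 h2
  unfold ld
  rw [← mul_div_assoc, div_eq_iff hu, dv_uK, NV_eq]
  simp only [hr]
  unfold qK
  rw [n0, n1, n2, n3, n4]
  show xK * (xK - (390)) * (xK - (-78)) * (xK - (30)) * (xK - (-780)) * (xK - (39/4)) * dx =
      (((0 : ℤ) : K (W8 k)) / 4 + ((-1110451680000 : ℤ) : K (W8 k)) / 4 * xK +
      ((0 : ℤ) : K (W8 k)) / 4 * yK + ((249139800000 : ℤ) : K (W8 k)) / 4 * xK ^ 2 +
      ((5694624000 : ℤ) : K (W8 k)) / 4 * (xK * yK) + ((-4453488000 : ℤ) : K (W8 k)) / 4 * xK ^ 3 +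
      ((-124113600 : ℤ) : K (W8 k)) / 4 * (xK ^ 2 * yK) + ((-91634400 : ℤ) : K (W8 k)) / 4 * xK ^ 4 +
      ((-2302560 : ℤ) : K (W8 k)) / 4 * (xK ^ 3 * yK) + ((136848 : ℤ) : K (W8 k)) / 4 * xK ^ 5 +
      ((3504 : ℤ) : K (W8 k)) / 4 * (xK ^ 4 * yK) + ((316 : ℤ) : K (W8 k)) / 4 * xK ^ 6 +
      ((8 : ℤ) : K (W8 k)) / 4 * (xK ^ 5 * yK)) * (xK - cK (39/4))
  push_cast
  rw [h1, n4]
  ring


lemma ld_uK6 [CharZero k] : qK k * ld (uK k 6) = NV (rr k 6) := by
  have : CharZero (K (W8 k)) :=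
    charZero_of_injective_algebraMap (algebraMap k (K (W8 k))).injective
  have hu := uK_ne k 6
  have he := eqW8 k
  have h1 := hdx k
  have h2 := hdy k
  have n0 : (cK (390) : K (W8 k)) = 390 := by simp [map_div₀, map_ofNat, map_neg]
  have n1 : (cK (-78) : K (W8 k)) = -78 := by simp [map_div₀, map_ofNat, map_neg]
  have n2 : (cK (30) : K (W8 k)) = 30 := by simp [map_div₀, map_ofNat, map_neg]
  have n3 : (cK (-780) : K (W8 k)) = -780 := by simp [map_div₀, map_ofNat, map_neg]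
  have n4 : (cK (39/4) : K (W8 k)) = 39/4 := by simp [map_div₀, map_ofNat, map_neg]
  have n5 : (cK (-6) : K (W8 k)) = -6 := by simp [map_div₀, map_ofNat, map_neg]
  have n6 : (cK (-60) : K (W8 k)) = -60 := by simp [map_div₀, map_ofNat, map_neg]
  have n7 : (cK (-39/2) : K (W8 k)) = -39/2 := by simp [map_div₀, map_ofNat, map_neg]
  have hr : ∀ j m, (cK (rr k j m) : K (W8 k)) = ((rrz j m : ℤ) : K (W8 k)) / 4 := by
    intro j m
    unfold rr
    first | rw [map_div₀, map_intCast, map_ofNat] | rw [map_div₀, map_intCast, map_one]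
  rw [n0, n1] at he h1 h2
  unfold ld
  rw [← mul_div_assoc, div_eq_iff hu, dv_uK, NV_eq]
  simp only [hr]
  unfold qK
  rw [n0, n1, n2, n3, n4]
  show xK * (xK - (390)) * (xK - (-78)) * (xK - (30)) * (xK - (-780)) * (xK - (39/4)) * dy =
      (((21653807760000 : ℤ) : K (W8 k)) / 4 + ((-4913748684000 : ℤ) : K (W8 k)) / 4 * xK +
      ((-55522584000 : ℤ) : K (W8 k)) / 4 * yK + ((321390342000 : ℤ) : K (W8 k)) / 4 * xK ^ 2 +
      ((6975914400 : ℤ) : K (W8 k)) / 4 * (xK * yK) + ((-3831459840 : ℤ) : K (W8 k)) / 4 * xK ^ 3 +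
      ((-110333340 : ℤ) : K (W8 k)) / 4 * (xK ^ 2 * yK) + ((-86372676 : ℤ) : K (W8 k)) / 4 * xK ^ 4 +
      ((-2228616 : ℤ) : K (W8 k)) / 4 * (xK ^ 3 * yK) + ((389214 : ℤ) : K (W8 k)) / 4 * xK ^ 5 +
      ((6699 : ℤ) : K (W8 k)) / 4 * (xK ^ 4 * yK) + ((632 : ℤ) : K (W8 k)) / 4 * xK ^ 6 +
      ((12 : ℤ) : K (W8 k)) / 4 * (xK ^ 5 * yK)) * (yK)
  push_cast
  rw [h2]
  linear_combination ((13880646000) * xK ^ 0 + (-1743978600) * xK ^ 1 + (27583335) * xK ^ 2 + (557154) * xK ^ 3 + (-6699/4) * xK ^ 4 + (-3) * xK ^ 5) * he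


lemma ld_uK7 [CharZero k] : qK k * ld (uK k 7) = NV (rr k 7) := by
  have : CharZero (K (W8 k)) :=
    charZero_of_injective_algebraMap (algebraMap k (K (W8 k))).injective
  have hu := uK_ne k 7
  have he := eqW8 k
  have h1 := hdx k
  have h2 := hdy k
  have n0 : (cK (390) : K (W8 k)) = 390 := by simp [map_div₀, map_ofNat, map_neg]
  have n1 : (cK (-78) : K (W8 k)) = -78 := by simp [map_div₀, map_ofNat, map_neg]
  have n2 : (cK (30) : K (W8 k)) = 30 := by simp [map_div₀, map_ofNat, map_neg]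
  have n3 : (cK (-780) : K (W8 k)) = -780 := by simp [map_div₀, map_ofNat, map_neg]
  have n4 : (cK (39/4) : K (W8 k)) = 39/4 := by simp [map_div₀, map_ofNat, map_neg]
  have n5 : (cK (-6) : K (W8 k)) = -6 := by simp [map_div₀, map_ofNat, map_neg]
  have n6 : (cK (-60) : K (W8 k)) = -60 := by simp [map_div₀, map_ofNat, map_neg]
  have n7 : (cK (-39/2) : K (W8 k)) = -39/2 := by simp [map_div₀, map_ofNat, map_neg]
  have hr : ∀ j m, (cK (rr k j m) : K (W8 k)) = ((rrz j m : ℤ) : K (W8 k)) / 4 := by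
    intro j m
    unfold rr
    first | rw [map_div₀, map_intCast, map_ofNat] | rw [map_div₀, map_intCast, map_one]
  rw [n0, n1] at he h1 h2
  unfold ld
  rw [← mul_div_assoc, div_eq_iff hu, dv_uK, NV_eq]
  simp only [hr]
  unfold qK
  rw [n0, n1, n2, n3, n4]
  show xK * (xK - (390)) * (xK - (-78)) * (xK - (30)) * (xK - (-780)) * (xK - (39/4)) * (dy - (-78) * dx) =
      (((10826903880000 : ℤ) : K (W8 k)) / 4 + ((-3400758270000 : ℤ) : K (W8 k)) / 4 * xK +
      ((-27761292000 : ℤ) : K (W8 k)) / 4 * yK + ((273163995000 : ℤ) : K (W8 k)) / 4 * xK ^ 2 +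
      ((3167634600 : ℤ) : K (W8 k)) / 4 * (xK * yK) + ((-3012948900 : ℤ) : K (W8 k)) / 4 * xK ^ 3 +
      ((-10677420 : ℤ) : K (W8 k)) / 4 * (xK ^ 2 * yK) + ((-94792698 : ℤ) : K (W8 k)) / 4 * xK ^ 4 +
      ((-2337894 : ℤ) : K (W8 k)) / 4 * (xK ^ 3 * yK) + ((133608 : ℤ) : K (W8 k)) / 4 * xK ^ 5 +
      ((6387 : ℤ) : K (W8 k)) / 4 * (xK ^ 4 * yK) + ((320 : ℤ) : K (W8 k)) / 4 * xK ^ 6 +
      ((12 : ℤ) : K (W8 k)) / 4 * (xK ^ 5 * yK)) * (yK - cK (-78) * xK)
  push_cast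
  rw [h1, h2, n1]
  linear_combination ((6940323000) * xK ^ 0 + (-791908650) * xK ^ 1 + (2669355) * xK ^ 2 + (1168947/2) * xK ^ 3 + (-6387/4) * xK ^ 4 + (-3) * xK ^ 5) * he


lemma ld_uK8 [CharZero k] : qK k * ld (uK k 8) = NV (rr k 8) := by
  have : CharZero (K (W8 k)) :=
    charZero_of_injective_algebraMap (algebraMap k (K (W8 k))).injective
  have hu := uK_ne k 8
  have he := eqW8 k
  have h1 := hdx k
  have h2 := hdy k
  have n0 : (cK (390) : K (W8 k)) = 390 := by simp [map_div₀, map_ofNat, map_neg]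
  have n1 : (cK (-78) : K (W8 k)) = -78 := by simp [map_div₀, map_ofNat, map_neg]
  have n2 : (cK (30) : K (W8 k)) = 30 := by simp [map_div₀, map_ofNat, map_neg]
  have n3 : (cK (-780) : K (W8 k)) = -780 := by simp [map_div₀, map_ofNat, map_neg]
  have n4 : (cK (39/4) : K (W8 k)) = 39/4 := by simp [map_div₀, map_ofNat, map_neg]
  have n5 : (cK (-6) : K (W8 k)) = -6 := by simp [map_div₀, map_ofNat, map_neg]
  have n6 : (cK (-60) : K (W8 k)) = -60 := by simp [map_div₀, map_ofNat, map_neg]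
  have n7 : (cK (-39/2) : K (W8 k)) = -39/2 := by simp [map_div₀, map_ofNat, map_neg]
  have hr : ∀ j m, (cK (rr k j m) : K (W8 k)) = ((rrz j m : ℤ) : K (W8 k)) / 4 := by
    intro j m
    unfold rr
    first | rw [map_div₀, map_intCast, map_ofNat] | rw [map_div₀, map_intCast, map_one]
  rw [n0, n1] at he h1 h2
  unfold ld
  rw [← mul_div_assoc, div_eq_iff hu, dv_uK, NV_eq]
  simp only [hr]
  unfold qK
  rw [n0, n1, n2, n3, n4]
  show xK * (xK - (390)) * (xK - (-78)) * (xK - (30)) * (xK - (-780)) * (xK - (39/4)) * (dy - cK (-6) * dx) =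
      (((10826903880000 : ℤ) : K (W8 k)) / 4 + ((-1735080750000 : ℤ) : K (W8 k)) / 4 * xK +
      ((-27761292000 : ℤ) : K (W8 k)) / 4 * yK + ((95918823000 : ℤ) : K (W8 k)) / 4 * xK ^ 2 +
      ((4021828200 : ℤ) : K (W8 k)) / 4 * (xK * yK) + ((-1501683300 : ℤ) : K (W8 k)) / 4 * xK ^ 3 +
      ((-86240700 : ℤ) : K (W8 k)) / 4 * (xK ^ 2 * yK) + ((-183483378 : ℤ) : K (W8 k)) / 4 * xK ^ 4 +
      ((-3559374 : ℤ) : K (W8 k)) / 4 * (xK ^ 3 * yK) + ((241680 : ℤ) : K (W8 k)) / 4 * xK ^ 5 +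
      ((4947 : ℤ) : K (W8 k)) / 4 * (xK ^ 4 * yK) + ((608 : ℤ) : K (W8 k)) / 4 * xK ^ 6 +
      ((12 : ℤ) : K (W8 k)) / 4 * (xK ^ 5 * yK)) * (yK - cK (-6) * xK)
  push_cast
  rw [h1, h2, n5]
  linear_combination ((6940323000) * xK ^ 0 + (-1005457050) * xK ^ 1 + (21560175) * xK ^ 2 + (1779687/2) * xK ^ 3 + (-4947/4) * xK ^ 4 + (-3) * xK ^ 5) * he


lemma ld_uK9 [CharZero k] : qK k * ld (uK k 9) = NV (rr k 9) := by
  have : CharZero (K (W8 k)) :=
    charZero_of_injective_algebraMap (algebraMap k (K (W8 k))).injective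
  have hu := uK_ne k 9
  have he := eqW8 k
  have h1 := hdx k
  have h2 := hdy k
  have n0 : (cK (390) : K (W8 k)) = 390 := by simp [map_div₀, map_ofNat, map_neg]
  have n1 : (cK (-78) : K (W8 k)) = -78 := by simp [map_div₀, map_ofNat, map_neg]
  have n2 : (cK (30) : K (W8 k)) = 30 := by simp [map_div₀, map_ofNat, map_neg]
  have n3 : (cK (-780) : K (W8 k)) = -780 := by simp [map_div₀, map_ofNat, map_neg]
  have n4 : (cK (39/4) : K (W8 k)) = 39/4 := by simp [map_div₀, map_ofNat, map_neg]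
  have n5 : (cK (-6) : K (W8 k)) = -6 := by simp [map_div₀, map_ofNat, map_neg]
  have n6 : (cK (-60) : K (W8 k)) = -60 := by simp [map_div₀, map_ofNat, map_neg]
  have n7 : (cK (-39/2) : K (W8 k)) = -39/2 := by simp [map_div₀, map_ofNat, map_neg]
  have hr : ∀ j m, (cK (rr k j m) : K (W8 k)) = ((rrz j m : ℤ) : K (W8 k)) / 4 := by
    intro j m
    unfold rr
    first | rw [map_div₀, map_intCast, map_ofNat] | rw [map_div₀, map_intCast, map_one]
  rw [n0, n1] at he h1 h2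
  unfold ld
  rw [← mul_div_assoc, div_eq_iff hu, dv_uK, NV_eq]
  simp only [hr]
  unfold qK
  rw [n0, n1, n2, n3, n4]
  show xK * (xK - (390)) * (xK - (-78)) * (xK - (30)) * (xK - (-780)) * (xK - (39/4)) * (dy - cK (-60) * dx) =
      (((10826903880000 : ℤ) : K (W8 k)) / 4 + ((-3359116332000 : ℤ) : K (W8 k)) / 4 * xK +
      ((-27761292000 : ℤ) : K (W8 k)) / 4 * yK + ((274979156400 : ℤ) : K (W8 k)) / 4 * xK ^ 2 +
      ((4342150800 : ℤ) : K (W8 k)) / 4 * (xK * yK) + ((-3647844720 : ℤ) : K (W8 k)) / 4 * xK ^ 3 +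
      ((-130593060 : ℤ) : K (W8 k)) / 4 * (xK ^ 2 * yK) + ((-93437136 : ℤ) : K (W8 k)) / 4 * xK ^ 4 +
      ((-2352636 : ℤ) : K (W8 k)) / 4 * (xK ^ 3 * yK) + ((106194 : ℤ) : K (W8 k)) / 4 * xK ^ 5 +
      ((2139 : ℤ) : K (W8 k)) / 4 * (xK ^ 4 * yK) + ((392 : ℤ) : K (W8 k)) / 4 * xK ^ 6 +
      ((12 : ℤ) : K (W8 k)) / 4 * (xK ^ 5 * yK)) * (yK - cK (-60) * xK)
  push_cast
  rw [h1, h2, n6]
  linear_combination ((6940323000) * xK ^ 0 + (-1085537700) * xK ^ 1 + (32648265) * xK ^ 2 + (588159) * xK ^ 3 + (-2139/4) * xK ^ 4 + (-3) * xK ^ 5) * he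


lemma ld_uK10 [CharZero k] : qK k * ld (uK k 10) = NV (rr k 10) := by
  have : CharZero (K (W8 k)) :=
    charZero_of_injective_algebraMap (algebraMap k (K (W8 k))).injective
  have hu := uK_ne k 10
  have he := eqW8 k
  have h1 := hdx k
  have h2 := hdy k
  have n0 : (cK (390) : K (W8 k)) = 390 := by simp [map_div₀, map_ofNat, map_neg]
  have n1 : (cK (-78) : K (W8 k)) = -78 := by simp [map_div₀, map_ofNat, map_neg]
  have n2 : (cK (30) : K (W8 k)) = 30 := by simp [map_div₀, map_ofNat, map_neg]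
  have n3 : (cK (-780) : K (W8 k)) = -780 := by simp [map_div₀, map_ofNat, map_neg]
  have n4 : (cK (39/4) : K (W8 k)) = 39/4 := by simp [map_div₀, map_ofNat, map_neg]
  have n5 : (cK (-6) : K (W8 k)) = -6 := by simp [map_div₀, map_ofNat, map_neg]
  have n6 : (cK (-60) : K (W8 k)) = -60 := by simp [map_div₀, map_ofNat, map_neg]
  have n7 : (cK (-39/2) : K (W8 k)) = -39/2 := by simp [map_div₀, map_ofNat, map_neg]
  have hr : ∀ j m, (cK (rr k j m) : K (W8 k)) = ((rrz j m : ℤ) : K (W8 k)) / 4 := by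
    intro j m
    unfold rr
    first | rw [map_div₀, map_intCast, map_ofNat] | rw [map_div₀, map_intCast, map_one]
  rw [n0, n1] at he h1 h2
  unfold ld
  rw [← mul_div_assoc, div_eq_iff hu, dv_uK, NV_eq]
  simp only [hr]
  unfold qK
  rw [n0, n1, n2, n3, n4]
  show xK * (xK - (390)) * (xK - (-78)) * (xK - (30)) * (xK - (-780)) * (xK - (39/4)) * (dy - cK (-39/2) * dx) =
      (((10826903880000 : ℤ) : K (W8 k)) / 4 + ((-2984338890000 : ℤ) : K (W8 k)) / 4 * xK +
      ((-27761292000 : ℤ) : K (W8 k)) / 4 * yK + ((276901092000 : ℤ) : K (W8 k)) / 4 * xK ^ 2 +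
      ((6264086400 : ℤ) : K (W8 k)) / 4 * (xK * yK) + ((-3485219400 : ℤ) : K (W8 k)) / 4 * xK ^ 3 +
      ((-108416880 : ℤ) : K (W8 k)) / 4 * (xK ^ 2 * yK) + ((-96305508 : ℤ) : K (W8 k)) / 4 * xK ^ 4 +
      ((-2390544 : ℤ) : K (W8 k)) / 4 * (xK ^ 3 * yK) + ((49251 : ℤ) : K (W8 k)) / 4 * xK ^ 5 +
      ((2058 : ℤ) : K (W8 k)) / 4 * (xK ^ 4 * yK) + ((554 : ℤ) : K (W8 k)) / 4 * xK ^ 6 +
      ((12 : ℤ) : K (W8 k)) / 4 * (xK ^ 5 * yK)) * (yK - cK (-39/2) * xK)
  push_cast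
  rw [h1, h2, n7]
  linear_combination ((6940323000) * xK ^ 0 + (-1566021600) * xK ^ 1 + (27104220) * xK ^ 2 + (597636) * xK ^ 3 + (-1029/2) * xK ^ 4 + (-3) * xK ^ 5) * he


lemma ld_uK [CharZero k] (j : Fin 11) : qK k * ld (uK k j) = NV (rr k j) := by
  fin_cases j
  · exact ld_uK0 k
  · exact ld_uK1 k
  · exact ld_uK2 k
  · exact ld_uK3 k
  · exact ld_uK4 k
  · exact ld_uK5 k
  · exact ld_uK6 k
  · exact ld_uK7 k
  · exact ld_uK8 k
  · exact ld_uK9 k
  · exact ld_uK10 k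


/-! ### monomials -/

/-- a monomial -/
noncomputable def mo (n : Fin 11 → ℤ) : K (W8 k) := ∏ j, uK k j ^ n j

/-- the coefficients of `q f'/f` for a monomial `f` -/
noncomputable def RR (n : Fin 11 → ℤ) : Fin 13 → k := ∑ j, ((n j : ℤ) : k) • rr k j

lemma LC_mo (n : Fin 11 → ℤ) : LC (mo k n) (- Dn n 0) 1 := by
  have h := LC_prod Finset.univ (z := fun j => uK k j ^ n j) (n := fun j => n j * (- oU j 0))
    (a := fun j => (1 : k) ^ n j) (fun j _ => (LC_uK k j).zpow (n j))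
  simp only [one_zpow, Finset.prod_const_one] at h
  have e : - Dn n 0 = ∑ j, n j * (- oU j 0) := by
    unfold Dn; rw [← Finset.sum_neg_distrib]; exact Finset.sum_congr rfl fun j _ => by ring
  rw [e]; exact h

lemma mo_ne (n : Fin 11 → ℤ) : mo k n ≠ 0 := (LC_mo k n).ne

lemma ld_prod {ι : Type*} (s : Finset ι) (z : ι → K (W8 k)) (hz : ∀ i ∈ s, z i ≠ 0) :
    ld (∏ i ∈ s, z i) = ∑ i ∈ s, ld (z i) := by
  classical
  induction s using Finset.induction_on with
  | empty => simpa using ld_one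
  | insert i s hi ih =>
    have h1 := hz i (Finset.mem_insert_self _ _)
    have h2 : ∀ j ∈ s, z j ≠ 0 := fun j hj => hz j (Finset.mem_insert_of_mem hj)
    rw [Finset.prod_insert hi, Finset.sum_insert hi, ld_mul h1 (Finset.prod_ne_zero_iff.mpr h2),
      ih h2]

variable [CharZero k]

lemma ld_mo (n : Fin 11 → ℤ) : qK k * ld (mo k n) = NV (RR k n) := by
  unfold mo RR
  rw [ld_prod k _ _ (fun j _ => zpow_ne_zero _ (uK_ne k j)), NV_sum, Finset.mul_sum]
  refine Finset.sum_congr rfl fun j _ => ?_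
  rw [ld_zpow (uK_ne k j), ← ld_uK]
  have : (cK ((n j : ℤ) : k) : K (W8 k)) = ((n j : ℤ) : K (W8 k)) := map_intCast _ _
  rw [this]; ring

lemma RR_top (n : Fin 11 → ℤ) : RR k n 12 = ((- Dn n 0 : ℤ) : k) := by
  unfold RR Dn
  rw [Finset.sum_apply, ← Finset.sum_neg_distrib]
  push_cast
  refine Finset.sum_congr rfl fun j _ => ?_
  rw [Pi.smul_apply, smul_eq_mul, rr_top]; push_cast; ring

variable {k}

/-- **the orders and values at the origin** -/
theorem bound_K {c₀ c₁ : k} (h0 : c₀ ≠ 0) (h1 : c₁ ≠ 0) {n n' : Fin 11 → ℤ}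
    (h : cK c₀ * mo k n + cK c₁ * mo k n' = 1) :
    (Dn n 0 = 0 ∧ Dn n' 0 = 0) ∨
    (1 ≤ Dn n 0 ∧ Dn n' 0 = 0 ∧ c₁ = 1 ∧
      ∃ M : Fin 13, ordm M = 13 - Dn n 0 ∧ ∀ m, M < m → RR k n' m = 0) ∨
    (Dn n 0 = 0 ∧ 1 ≤ Dn n' 0 ∧ c₀ = 1) ∨
    (Dn n 0 = Dn n' 0 ∧ Dn n 0 ≤ -1 ∧ c₀ = - c₁) := by
  have hc0 : (cK c₀ : K (W8 k)) ≠ 0 := ne_of_v (v_c h0)
  have hc1 : (cK c₁ : K (W8 k)) ≠ 0 := ne_of_v (v_c h1)
  have Lf : LC (cK c₀ * mo k n) (- Dn n 0) c₀ := by
    have := (LC_c (W := W8 k) h0).mul (LC_mo k n); rwa [zero_add, mul_one] at this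
  have Lg : LC (cK c₁ * mo k n') (- Dn n' 0) c₁ := by
    have := (LC_c (W := W8 k) h1).mul (LC_mo k n'); rwa [zero_add, mul_one] at this
  have lf : NV (RR k n) = qK k * ld (cK c₀ * mo k n) := by
    rw [ld_mul hc0 (mo_ne _ _), ld_c, zero_add, ld_mo]
  have lg : NV (RR k n') = qK k * ld (cK c₁ * mo k n') := by
    rw [ld_mul hc1 (mo_ne _ _), ld_c, zero_add, ld_mo]
  have top : ∀ {m : Fin 11 → ℤ}, RR k m 12 ≠ 0 ↔ Dn m 0 ≠ 0 := by
    intro m; rw [RR_top]
    constructor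
    · intro h h'; apply h; rw [h']; simp
    · intro h h'; apply h; have := Int.cast_eq_zero.mp h'; omega
  rcases wr2 h lf lg Lf.v_eq Lg.v_eq (NV_key _) (NV_key _) (by rw [← NV_sub]; exact NV_key _) with
    ⟨h2, h3⟩ | ⟨i, j, l, hi, hj, hl, e1, e2, h2⟩
  · left
    constructor
    · by_contra hne
      exact top.mpr hne (by rw [NV_eq_zero h2]; rfl)
    · by_contra hne
      exact top.mpr hne (by rw [NV_eq_zero h3]; rfl)
  · have val1 : Dn n 0 = 0 → Dn n' 0 ≥ 1 → c₀ = 1 := by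
      intro a1 a2
      rw [a1, neg_zero] at Lf
      refine Lf.unique LC_one ?_
      have : cK c₀ * mo k n - 1 = - (cK c₁ * mo k n') := by rw [← h]; ring
      rw [this, Valuation.map_neg, Lg.v_eq, ← exp_zero, exp_lt_exp]; omega
    have val2 : Dn n' 0 = 0 → Dn n 0 ≥ 1 → c₁ = 1 := by
      intro a1 a2
      rw [a1, neg_zero] at Lg
      refine Lg.unique LC_one ?_
      have : cK c₁ * mo k n' - 1 = - (cK c₀ * mo k n) := by rw [← h]; ring
      rw [this, Valuation.map_neg, Lf.v_eq, ← exp_zero, exp_lt_exp]; omega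
    have val3 : Dn n 0 = Dn n' 0 → Dn n 0 ≤ -1 → c₀ = - c₁ := by
      intro a1 a2
      have L1 := Lf.div Lg
      rw [a1, sub_self] at L1
      have L2 : LC (-1 : K (W8 k)) 0 (-1) := by
        have := LC_c (W := W8 k) (a := -1) (neg_ne_zero.mpr one_ne_zero)
        rwa [map_neg, map_one] at this
      have h3 : c₀ / c₁ = -1 := by
        refine L1.unique L2 ?_
        have hg := Lg.ne
        have : cK c₀ * mo k n / (cK c₁ * mo k n') - (-1) = 1 / (cK c₁ * mo k n') := by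
          rw [sub_neg_eq_add, div_add_one hg, h]
        rw [this, map_div₀, map_one, Lg.v_eq, one_div, ← exp_neg, ← exp_zero, exp_lt_exp]; omega
      rw [div_eq_iff h1] at h3; rw [h3]; ring
    rcases h2 with h2 | h2 | h2 | h2
    · right; right; right
      exact ⟨by omega, by omega, val3 (by omega) (by omega)⟩
    · left; omega
    · right; left
      refine ⟨by omega, by omega, val2 (by omega) (by omega), ?_⟩
      have t0 : RR k n' 12 = 0 := by rw [RR_top, show Dn n' 0 = 0 by omega]; simp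
      have t1 : RR k n 12 ≠ 0 := top.mpr (by omega)
      have l9 : l = 13 := by
        rw [← NV_sub] at hl
        rcases v_NV' (W := W8 k) (RR k n - RR k n') with h3 | ⟨M, hM, hM', hv⟩
        · rw [h3, NV_zero, map_zero] at hl; exact absurd hl.symm exp_ne_zero
        · rw [hl, exp_inj] at hv
          have : M = 12 := by
            by_contra hne
            have h4 := hM' 12 (lt_of_le_of_ne (Fin.le_last M) hne)
            rw [Pi.sub_apply, t0, sub_zero] at h4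
            exact t1 h4
          rw [hv, this]; rfl
      rcases v_NV' (W := W8 k) (RR k n') with h3 | ⟨M, hM, hM', hv⟩
      · rw [h3, NV_zero, map_zero] at hj; exact absurd hj.symm exp_ne_zero
      · rw [hj, exp_inj] at hv
        exact ⟨M, by omega, hM'⟩
    · right; right; left
      exact ⟨by omega, by omega, val1 (by omega) (by omega)⟩

end K

end Pool.Agent.KYb
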