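import Pool.Agent.Lib_helper72.KYb.Bq0
import Pool.Agent.Lib_helper72.KYb.Bq1
import Pool.Agent.Lib_helper72.KYb.Bq2
import Pool.Agent.Lib_helper72.KYb.Cl

/-!
# The curve with `b = 390`, `c = -78`: identities
-/

set_option autoImplicit false
set_option linter.unusedSectionVars false
set_option linter.unusedSimpArgs false
set_option linter.unusedVariables false

namespace Pool.Agent.KYb

open Polynomial WeierstrassCurve.Affine WithZero TN KY KC72

section

variable {k : Type*} [Field k] [CharZero k] {F : Type*} [Field F] [Algebra k F] {x y : F}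

lemma bp_sol (h : Gen (390 : k) (-78) x y) : ∀ r < 34,
    KC72.ev (List.ofFn (G8 x y)) (bp.getD r default).1 +
      KC72.ev (List.ofFn (G8 x y)) (bp.getD r default).2.1 =
      KC72.ev (List.ofFn (G8 x y)) (bp.getD r default).2.2 := by
  intro r hr
  interval_cases r
  · exact bp0 h
  · exact bp1 h
  · exact bp2 h
  · exact bp3 h
  · exact bp4 h
  · exact bp5 h
  · exact bp6 h
  · exact bp7 h
  · exact bp8 h
  · exact bp9 h
  · exact bp10 h
  · exact bp11 h
  · exact bp12 h
  · exact bp13 h
  · exact bp14 h
  · exact bp15 h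
  · exact bp16 h
  · exact bp17 h
  · exact bp18 h
  · exact bp19 h
  · exact bp20 h
  · exact bp21 h
  · exact bp22 h
  · exact bp23 h
  · exact bp24 h
  · exact bp25 h
  · exact bp26 h
  · exact bp27 h
  · exact bp28 h
  · exact bp29 h
  · exact bp30 h
  · exact bp31 h
  · exact bp32 h
  · exact bp33 h

end

end Pool.Agent.KYb
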