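import Pool.Agent.Lib_helper72.KYb.C
import Pool.Agent.Lib_helper72.KYb.ClD
import Pool.Agent.Lib_helper72.KY.Nx
import Pool.Agent.Lib_helper72.KC.P2

/-!
# The curve with `b = 390`, `c = -78`: data of the cubic step
-/

set_option autoImplicit false
set_option linter.unusedSectionVars false
set_option linter.unusedSimpArgs false
set_option linter.unusedVariables false

namespace Pool.Agent.KYb

open Polynomial WeierstrassCurve.Affine WithZero TN KY KC72 MK4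
open Pool.Agent.K7 (orb6_orb)

/-- the Moebius functions -/
noncomputable def pq : List Mo := [
  (false, [.ofNat 0, .ofNat 1, .ofNat 0, .negSucc 0, .ofNat 0, .ofNat 0, .ofNat 0, .ofNat 0, .ofNat 0, .ofNat 0, .ofNat 0, .ofNat 0, .ofNat 0, .ofNat 0, .negSucc 0]),
  (true, [.ofNat 0, .ofNat 0, .ofNat 0, .ofNat 0, .ofNat 0, .ofNat 1, .ofNat 0, .ofNat 0, .ofNat 0, .ofNat 0, .ofNat 0, .ofNat 2, .negSucc 0, .ofNat 0, .negSucc 0]),
  (true, [.ofNat 0, .ofNat 1, .negSucc 0, .ofNat 0, .ofNat 0, .ofNat 0, .ofNat 0, .ofNat 0, .ofNat 0, .ofNat 0, .ofNat 0, .negSucc 0, .ofNat 1, .negSucc 0, .ofNat 0]),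
  (false, [.ofNat 0, .ofNat 0, .ofNat 0, .ofNat 0, .negSucc 0, .ofNat 1, .ofNat 0, .ofNat 0, .ofNat 0, .ofNat 0, .ofNat 0, .ofNat 3, .ofNat 0, .ofNat 1, .ofNat 0]),
  (true, [.ofNat 0, .ofNat 1, .ofNat 0, .ofNat 0, .ofNat 0, .ofNat 0, .ofNat 0, .ofNat 0, .ofNat 0, .ofNat 0, .ofNat 0, .negSucc 0, .negSucc 1, .negSucc 0, .negSucc 0]),
  (false, [.ofNat 0, .ofNat 0, .ofNat 0, .negSucc 0, .ofNat 0, .ofNat 1, .ofNat 0, .ofNat 0, .ofNat 0, .ofNat 0, .ofNat 0, .ofNat 3, .negSucc 0, .ofNat 1, .negSucc 0]),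
  (false, [.ofNat 0, .ofNat 0, .ofNat 0, .ofNat 0, .negSucc 0, .ofNat 1, .ofNat 0, .ofNat 0, .ofNat 0, .ofNat 0, .ofNat 0, .ofNat 3, .ofNat 0, .ofNat 1, .negSucc 0]),
  (false, [.ofNat 0, .negSucc 0, .ofNat 0, .ofNat 0, .ofNat 0, .ofNat 1, .ofNat 0, .ofNat 0, .ofNat 0, .ofNat 0, .ofNat 0, .ofNat 0, .ofNat 0, .ofNat 0, .ofNat 0]),
  (true, [.ofNat 0, .ofNat 0, .ofNat 0, .ofNat 0, .ofNat 0, .ofNat 1, .ofNat 0, .ofNat 0, .ofNat 0, .ofNat 0, .ofNat 0, .ofNat 2, .negSucc 2, .ofNat 0, .negSucc 0]),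
  (false, [.ofNat 0, .ofNat 1, .ofNat 0, .negSucc 0, .ofNat 0, .ofNat 0, .ofNat 0, .ofNat 0, .ofNat 0, .ofNat 0, .ofNat 0, .ofNat 0, .ofNat 1, .ofNat 0, .negSucc 0]),
  (true, [.ofNat 1, .ofNat 0, .ofNat 0, .ofNat 0, .negSucc 0, .ofNat 0, .ofNat 0, .ofNat 0, .ofNat 0, .ofNat 0, .ofNat 0, .ofNat 0, .ofNat 2, .ofNat 0, .ofNat 0]),
  (true, [.ofNat 0, .ofNat 1, .negSucc 0, .ofNat 0, .ofNat 0, .ofNat 0, .ofNat 0, .ofNat 0, .ofNat 0, .ofNat 0, .ofNat 0, .negSucc 0, .ofNat 1, .negSucc 0, .ofNat 0]),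
  (false, [.ofNat 1, .ofNat 0, .negSucc 0, .ofNat 0, .ofNat 0, .ofNat 0, .ofNat 0, .ofNat 0, .ofNat 0, .ofNat 0, .ofNat 0, .ofNat 1, .ofNat 2, .negSucc 0, .ofNat 0]),
  (true, [.ofNat 0, .ofNat 1, .ofNat 0, .ofNat 0, .negSucc 0, .ofNat 0, .ofNat 0, .ofNat 0, .ofNat 0, .ofNat 0, .ofNat 0, .negSucc 0, .ofNat 1, .ofNat 0, .ofNat 0]),
  (false, [.ofNat 1, .ofNat 0, .ofNat 0, .negSucc 0, .ofNat 0, .ofNat 0, .ofNat 0, .ofNat 0, .ofNat 0, .ofNat 0, .ofNat 0, .ofNat 1, .ofNat 2, .ofNat 0, .negSucc 0]),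
  (false, [.ofNat 1, .ofNat 0, .negSucc 0, .ofNat 0, .ofNat 0, .ofNat 0, .ofNat 0, .ofNat 0, .ofNat 0, .ofNat 0, .ofNat 0, .ofNat 1, .ofNat 1, .negSucc 0, .ofNat 0]),
  (false, [.ofNat 1, .negSucc 0, .ofNat 0, .ofNat 0, .ofNat 0, .ofNat 0, .ofNat 0, .ofNat 0, .ofNat 0, .ofNat 0, .ofNat 0, .negSucc 0, .ofNat 1, .ofNat 0, .ofNat 0])]

/-- the functions of degree three of the coordinate -/
noncomputable def R0 : List Mo := [
  (true, [.ofNat 0, .ofNat 2, .ofNat 0, .negSucc 1, .ofNat 0, .ofNat 1, .ofNat 0, .ofNat 0, .ofNat 0, .ofNat 0, .ofNat 0, .ofNat 2, .negSucc 0, .ofNat 0, .negSucc 2]),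
  (true, [.ofNat 1, .ofNat 2, .ofNat 0, .negSucc 1, .negSucc 0, .ofNat 0, .ofNat 0, .ofNat 0, .ofNat 0, .ofNat 0, .ofNat 0, .ofNat 0, .ofNat 4, .ofNat 0, .negSucc 1])]

/-- positions of the translates of `pq` -/
noncomputable def qT : List (List (ℕ × ℕ)) := [
  [(103, 4), (69, 4), (166, 5), (241, 1), (148, 5), (241, 3), (147, 1), (143, 2), (205, 4), (166, 0), (74, 0), (166, 5), (82, 5), (149, 0), (82, 0), (104, 5), (75, 5)],
  [(136, 4), (329, 1), (227, 1), (254, 0), (0, 2), (254, 5), (267, 2), (9, 4), (8, 2), (227, 3), (202, 5), (227, 1), (200, 0), (221, 3), (200, 5), (137, 5), (139, 0)],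
  [(35, 4), (107, 1), (157, 1), (244, 0), (281, 1), (244, 5), (245, 0), (273, 5), (274, 0), (157, 3), (33, 5), (157, 1), (31, 0), (126, 3), (31, 5), (36, 5), (298, 4)],
  [(304, 4), (112, 0), (51, 5), (225, 0), (294, 4), (225, 5), (102, 1), (291, 0), (135, 5), (51, 0), (159, 3), (51, 5), (229, 5), (54, 5), (229, 0), (305, 5), (89, 2)],
  [(269, 2), (110, 0), (311, 0), (186, 0), (278, 4), (186, 5), (187, 0), (111, 5), (98, 4), (311, 5), (323, 3), (311, 0), (314, 1), (310, 5), (314, 3), (70, 3), (279, 1)],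
  [(27, 2), (243, 1), (88, 1), (38, 1), (161, 1), (38, 3), (141, 2), (193, 2), (116, 4), (88, 3), (285, 3), (88, 1), (86, 1), (284, 3), (86, 3), (150, 3), (177, 4)]]

/-- positions of the classes of degree six -/
noncomputable def cubT : List (ℕ × ℕ × ℕ) := [(0, 1, 3), (1, 5, 3), (1, 3, 0), (1, 0, 0), (1, 2, 5), (0, 0, 4), (1, 1, 3), (1, 4, 3)]

/-- the classes of degree at most five -/
noncomputable def clsA : List (Mo × Mo) := cls.take 345

section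

variable {k : Type*} [Field k] [CharZero k] {F : Type*} [Field F] [Algebra k F] {x y : F}

lemma mk0 : algebraMap k F (390) = 390 := by simp [map_div₀, map_ofNat, map_neg]

lemma mk1 : algebraMap k F (39/4) = 39/4 := by simp [map_div₀, map_ofNat, map_neg]

lemma mk2 : algebraMap k F (0) = 0 := by simp [map_div₀, map_ofNat, map_neg]

lemma mk3 : algebraMap k F (-78) = -78 := by simp [map_div₀, map_ofNat, map_neg]

lemma mk4 : algebraMap k F (-780) = -780 := by simp [map_div₀, map_ofNat, map_neg]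

lemma mk5 : algebraMap k F (30) = 30 := by simp [map_div₀, map_ofNat, map_neg]

lemma mk6 : algebraMap k F (-4/6591) = -4/6591 := by simp [map_div₀, map_ofNat, map_neg]

lemma mk7 : algebraMap k F (1/1170) = 1/1170 := by simp [map_div₀, map_ofNat, map_neg]

lemma mk8 : algebraMap k F (1/780) = 1/780 := by simp [map_div₀, map_ofNat, map_neg]

lemma mk9 : algebraMap k F (1/702) = 1/702 := by simp [map_div₀, map_ofNat, map_neg]

lemma mk10 : algebraMap k F (1/810) = 1/810 := by simp [map_div₀, map_ofNat, map_neg]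

lemma mk11 : algebraMap k F (780) = 780 := by simp [map_div₀, map_ofNat, map_neg]

end

end Pool.Agent.KYb
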