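import Pool.Agent.Lib_helper72.KYb.Cp

/-!
# The curve with `b = 390`, `c = -78`: identities of the cubic step
-/

set_option autoImplicit false
set_option linter.unusedSectionVars false
set_option linter.unusedSimpArgs false
set_option linter.unusedVariables false

namespace Pool.Agent.KYb

open Polynomial WeierstrassCurve.Affine WithZero TN KY KC72 MK4
open Pool.Agent.K7 (orb6_orb)

section

variable {k : Type*} [Field k] [CharZero k] {F : Type*} [Field F] [Algebra k F] {x y : F}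

lemma sq8 (h : Gen (390 : k) (-78) x y) : SS (pt x) (pt (algebraMap k F (39/4))) (po F) (pt (algebraMap k F (-78))) =
    sy (KC72.ev (List.ofFn (G8 x y)) (pq.getD 8 default)) := by
  have := cz (k := k) (F := F)
  have n1 : x ≠ 0 := uF_ne h 0
  have n2 : x - 390 ≠ 0 := uF_ne h 1
  have n3 : x + 78 ≠ 0 := uF_ne h 2
  have n4 : x - 30 ≠ 0 := uF_ne h 3
  have n5 : x + 780 ≠ 0 := uF_ne h 4
  have n6 : x - 39/4 ≠ 0 := uF_ne h 5
  show _ = sy (KC72.ev (List.ofFn (G8 x y)) (true, [.ofNat 0, .ofNat 0, .ofNat 0, .ofNat 0, .ofNat 0, .ofNat 1, .ofNat 0, .ofNat 0, .ofNat 0, .ofNat 0, .ofNat 0, .ofNat 2, .negSucc 2, .ofNat 0, .negSucc 0]))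
  unfold SS
  congr 1
  rw [ev_G8 (k := k)]
  unfold KC72.cr
  simp only [br_pt, br_pto, br_opt, mk0, mk1, mk2, mk3, mk4, mk5, mk6, mk7, mk8, mk9, mk10, mk11]
  simp [M8, Fin.prod_univ_succ, uF, zpow_ofNat, map_ofNat]
  field_simp
  try ring

lemma sq9 (h : Gen (390 : k) (-78) x y) : SS (pt (1 / (x + 780))) (pt (algebraMap k F (1/1170))) (pt (algebraMap k F (1/810))) (pt (algebraMap k F (1/702))) =
    sy (KC72.ev (List.ofFn (G8 x y)) (pq.getD 9 default)) := by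
  have := cz (k := k) (F := F)
  have n1 : x ≠ 0 := uF_ne h 0
  have n2 : x - 390 ≠ 0 := uF_ne h 1
  have n3 : x + 78 ≠ 0 := uF_ne h 2
  have n4 : x - 30 ≠ 0 := uF_ne h 3
  have n5 : x + 780 ≠ 0 := uF_ne h 4
  have n6 : x - 39/4 ≠ 0 := uF_ne h 5
  have l2 : (1 / (x + 780)) - (1/1170) = (-1/1170) * (x - 390) / (x + 780) := by
    field_simp
    ring
  have l4 : (1 / (x + 780)) - (1/810) = (-1/810) * (x - 30) / (x + 780) := by
    field_simp
    ring
  show _ = sy (KC72.ev (List.ofFn (G8 x y)) (false, [.ofNat 0, .ofNat 1, .ofNat 0, .negSucc 0, .ofNat 0, .ofNat 0, .ofNat 0, .ofNat 0, .ofNat 0, .ofNat 0, .ofNat 0, .ofNat 0, .ofNat 1, .ofNat 0, .negSucc 0]))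
  unfold SS
  congr 1
  rw [ev_G8 (k := k)]
  unfold KC72.cr
  simp only [br_pt, br_pto, br_opt, mk0, mk1, mk2, mk3, mk4, mk5, mk6, mk7, mk8, mk9, mk10, mk11]
  rw [l2, l4]
  simp [M8, Fin.prod_univ_succ, uF, zpow_ofNat, map_ofNat]
  field_simp
  try ring

lemma sq10 (h : Gen (390 : k) (-78) x y) : SS (pt (1 / (x + 780))) (pt (algebraMap k F (1/780))) (po F) (pt (algebraMap k F (1/702))) =
    sy (KC72.ev (List.ofFn (G8 x y)) (pq.getD 10 default)) := by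
  have := cz (k := k) (F := F)
  have n1 : x ≠ 0 := uF_ne h 0
  have n2 : x - 390 ≠ 0 := uF_ne h 1
  have n3 : x + 78 ≠ 0 := uF_ne h 2
  have n4 : x - 30 ≠ 0 := uF_ne h 3
  have n5 : x + 780 ≠ 0 := uF_ne h 4
  have n6 : x - 39/4 ≠ 0 := uF_ne h 5
  have l1 : (1 / (x + 780)) - (1/780) = (-1/780) * (x) / (x + 780) := by
    field_simp
    ring
  show _ = sy (KC72.ev (List.ofFn (G8 x y)) (true, [.ofNat 1, .ofNat 0, .ofNat 0, .ofNat 0, .negSucc 0, .ofNat 0, .ofNat 0, .ofNat 0, .ofNat 0, .ofNat 0, .ofNat 0, .ofNat 0, .ofNat 2, .ofNat 0, .ofNat 0]))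
  unfold SS
  congr 1
  rw [ev_G8 (k := k)]
  unfold KC72.cr
  simp only [br_pt, br_pto, br_opt, mk0, mk1, mk2, mk3, mk4, mk5, mk6, mk7, mk8, mk9, mk10, mk11]
  rw [l1]
  simp [M8, Fin.prod_univ_succ, uF, zpow_ofNat, map_ofNat]
  field_simp
  try ring

lemma sq11 (h : Gen (390 : k) (-78) x y) : SS (pt (1 / (x + 780))) (pt (algebraMap k F (1/1170))) (pt (algebraMap k F (1/702))) (pt (algebraMap k F (1/810))) =
    sy (KC72.ev (List.ofFn (G8 x y)) (pq.getD 11 default)) := by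
  have := cz (k := k) (F := F)
  have n1 : x ≠ 0 := uF_ne h 0
  have n2 : x - 390 ≠ 0 := uF_ne h 1
  have n3 : x + 78 ≠ 0 := uF_ne h 2
  have n4 : x - 30 ≠ 0 := uF_ne h 3
  have n5 : x + 780 ≠ 0 := uF_ne h 4
  have n6 : x - 39/4 ≠ 0 := uF_ne h 5
  have l2 : (1 / (x + 780)) - (1/1170) = (-1/1170) * (x - 390) / (x + 780) := by
    field_simp
    ring
  have l3 : (1 / (x + 780)) - (1/702) = (-1/702) * (x + 78) / (x + 780) := by
    field_simp
    ring
  show _ = sy (KC72.ev (List.ofFn (G8 x y)) (true, [.ofNat 0, .ofNat 1, .negSucc 0, .ofNat 0, .ofNat 0, .ofNat 0, .ofNat 0, .ofNat 0, .ofNat 0, .ofNat 0, .ofNat 0, .negSucc 0, .ofNat 1, .negSucc 0, .ofNat 0]))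
  unfold SS
  congr 1
  rw [ev_G8 (k := k)]
  unfold KC72.cr
  simp only [br_pt, br_pto, br_opt, mk0, mk1, mk2, mk3, mk4, mk5, mk6, mk7, mk8, mk9, mk10, mk11]
  rw [l2, l3]
  simp [M8, Fin.prod_univ_succ, uF, zpow_ofNat, map_ofNat]
  field_simp
  try ring

lemma sq12 (h : Gen (390 : k) (-78) x y) : SS (pt (1 / (x + 780))) (pt (algebraMap k F (1/780))) (pt (algebraMap k F (1/702))) (pt (algebraMap k F (1/810))) =
    sy (KC72.ev (List.ofFn (G8 x y)) (pq.getD 12 default)) := by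
  have := cz (k := k) (F := F)
  have n1 : x ≠ 0 := uF_ne h 0
  have n2 : x - 390 ≠ 0 := uF_ne h 1
  have n3 : x + 78 ≠ 0 := uF_ne h 2
  have n4 : x - 30 ≠ 0 := uF_ne h 3
  have n5 : x + 780 ≠ 0 := uF_ne h 4
  have n6 : x - 39/4 ≠ 0 := uF_ne h 5
  have l1 : (1 / (x + 780)) - (1/780) = (-1/780) * (x) / (x + 780) := by
    field_simp
    ring
  have l3 : (1 / (x + 780)) - (1/702) = (-1/702) * (x + 78) / (x + 780) := by
    field_simp
    ring
  show _ = sy (KC72.ev (List.ofFn (G8 x y)) (false, [.ofNat 1, .ofNat 0, .negSucc 0, .ofNat 0, .ofNat 0, .ofNat 0, .ofNat 0, .ofNat 0, .ofNat 0, .ofNat 0, .ofNat 0, .ofNat 1, .ofNat 2, .negSucc 0, .ofNat 0]))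
  unfold SS
  congr 1
  rw [ev_G8 (k := k)]
  unfold KC72.cr
  simp only [br_pt, br_pto, br_opt, mk0, mk1, mk2, mk3, mk4, mk5, mk6, mk7, mk8, mk9, mk10, mk11]
  rw [l1, l3]
  simp [M8, Fin.prod_univ_succ, uF, zpow_ofNat, map_ofNat]
  field_simp
  try ring

lemma sq13 (h : Gen (390 : k) (-78) x y) : SS (pt (1 / (x + 780))) (pt (algebraMap k F (1/1170))) (po F) (pt (algebraMap k F (1/702))) =
    sy (KC72.ev (List.ofFn (G8 x y)) (pq.getD 13 default)) := by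
  have := cz (k := k) (F := F)
  have n1 : x ≠ 0 := uF_ne h 0
  have n2 : x - 390 ≠ 0 := uF_ne h 1
  have n3 : x + 78 ≠ 0 := uF_ne h 2
  have n4 : x - 30 ≠ 0 := uF_ne h 3
  have n5 : x + 780 ≠ 0 := uF_ne h 4
  have n6 : x - 39/4 ≠ 0 := uF_ne h 5
  have l2 : (1 / (x + 780)) - (1/1170) = (-1/1170) * (x - 390) / (x + 780) := by
    field_simp
    ring
  show _ = sy (KC72.ev (List.ofFn (G8 x y)) (true, [.ofNat 0, .ofNat 1, .ofNat 0, .ofNat 0, .negSucc 0, .ofNat 0, .ofNat 0, .ofNat 0, .ofNat 0, .ofNat 0, .ofNat 0, .negSucc 0, .ofNat 1, .ofNat 0, .ofNat 0]))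
  unfold SS
  congr 1
  rw [ev_G8 (k := k)]
  unfold KC72.cr
  simp only [br_pt, br_pto, br_opt, mk0, mk1, mk2, mk3, mk4, mk5, mk6, mk7, mk8, mk9, mk10, mk11]
  rw [l2]
  simp [M8, Fin.prod_univ_succ, uF, zpow_ofNat, map_ofNat]
  field_simp
  try ring

end

end Pool.Agent.KYb
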