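import Pool.Agent.Lib_helper72.KY.Only
import Pool.Agent.Lib_helper72.KYb.SC
import Pool.Agent.Lib_helper72.KYb.Cub
import Pool.Agent.Lib_helper72.MC12b.Ok

/-!
# A point of order twelve, `t = 3 / 2`: only the constants are closed
-/

set_option autoImplicit false
set_option linter.unusedSectionVars false
set_option linter.unusedVariables false

open scoped TensorProduct WithZero

namespace Pool.Agent.KYb

open Pool.Agent.MK4 WeierstrassCurve.Affine Pool.Agent.KC72 Pool.Agent.FK4
open Pool.Agent.TN (Wt Gen)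
open Pool.Agent.UEG (P0)

variable {k : Type*} [Field k] [DecidableEq k] [CharZero k] {W : WeierstrassCurve.Affine k}
  {F : Type*} [Field F] [Algebra k F] {X Y : F}

lemma uF_eq (x y : F) : UE12B.uF (3 / 2 : k) x y = uF x y := by
  have e1 : UE12.bb (3 / 2 : k) = 390 := by unfold UE12.bb UE12.cc; norm_num
  have e2 : UE12.cc (3 / 2 : k) = -78 := by unfold UE12.cc; norm_num
  have e3 : UE12.x4 (3 / 2 : k) = 30 := by unfold UE12.x4; norm_num
  have e4 : UE12.x5 (3 / 2 : k) = -780 := by unfold UE12.x5; norm_num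
  have e5 : UE12.x6 (3 / 2 : k) = 39 / 4 := by unfold UE12.x6; norm_num
  have e6 : UE12.s3 (3 / 2 : k) = -6 := by unfold UE12.s3; norm_num
  have e7 : UE12.s4 (3 / 2 : k) = -60 := by unfold UE12.s4; norm_num
  have e8 : UE12.s5 (3 / 2 : k) = -39 / 2 := by unfold UE12.s5; norm_num
  unfold UE12B.uF uF
  rw [e1, e2, e3, e4, e5, e6, e7, e8]
  simp [map_neg, map_div₀, map_ofNat, sub_neg_eq_add, neg_mul, neg_div]

/-- **only the constants** -/
theorem only (hg : Generic W X Y) {P : W.Point} (h : To12t (3 / 2 : k) P X Y) :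
    ClosedIn (AddSubgroup.zmultiples P) X Y ⊥ := by
  have : CharZero F := charZero_of_injective_algebraMap (algebraMap k F).injective
  refine only12 hg (t := 3 / 2) (by norm_num) (by norm_num) (by norm_num) (by norm_num)
    (by norm_num) h MC12b.c12b_ok (n := 15) rfl rfl (cls := clsA) sameC_ok (by norm_num)
    (B := 390) (C := -78) (by unfold UE12.bb UE12.cc; norm_num) (by unfold UE12.cc; norm_num)
    (G := fun x y => G8 x y) ?_ (fun x y i hi => G8_const i hi) (fun h i => G8_ne h i)
    (fun h e he hp => G8_hc h e he hp) (fun h p hp => sols8 h p (List.mem_of_mem_take hp)) ?_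
  · intro x y j
    rw [uF_eq]
    fin_cases j <;> rfl
  · intro x y h f h1 h2
    have e1 : U8 k x y f := by
      obtain ⟨c, n, hc, e⟩ := h1
      rw [uF_eq] at e
      exact ⟨c, n, hc, e⟩
    have e2 : U8 k x y (1 - f) := by
      obtain ⟨c, n, hc, e⟩ := h2
      rw [uF_eq] at e
      exact ⟨c, n, hc, e⟩
    exact hUA h e1 e2

end Pool.Agent.KYb
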